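import Mathlib

set_option autoImplicit false

/-! Composite integers among the integer parts of the powers of `4/3`. -/

namespace Pool.Agent.helper391_FT

/-- The integer part of `(4/3)^n`. -/
noncomputable def a (n : ℕ) : ℕ := ⌊((4 : ℝ) / 3) ^ n⌋₊

theorem a_le (n : ℕ) : (a n : ℝ) ≤ ((4 : ℝ) / 3) ^ n := Nat.floor_le (by positivity)

theorem lt_a (n : ℕ) : ((4 : ℝ) / 3) ^ n < a n + 1 := Nat.lt_floor_add_one _

theorem a_step (n : ℕ) : 4 * a n ≤ 3 * a (n + 1) + 2 ∧ 3 * a (n + 1) ≤ 4 * a n + 3 := by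
  have h1 := a_le n
  have h2 := lt_a n
  have h3 := a_le (n + 1)
  have h4 := lt_a (n + 1)
  rw [pow_succ] at h3 h4
  constructor
  · have : (4 * a n : ℝ) < 3 * a (n + 1) + 3 := by linarith
    have h5 : 4 * a n < 3 * a (n + 1) + 3 := by exact_mod_cast this
    omega
  · have : (3 * a (n + 1) : ℝ) < 4 * a n + 4 := by linarith
    have h5 : 3 * a (n + 1) < 4 * a n + 4 := by exact_mod_cast this
    omega

theorem a_large (n : ℕ) (hn : 7 ≤ n) : 7 ≤ a n := by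
  refine Nat.le_floor ?_
  calc ((7 : ℕ) : ℝ) ≤ ((4 : ℝ) / 3) ^ 7 := by norm_num
    _ ≤ ((4 : ℝ) / 3) ^ n := pow_le_pow_right₀ (by norm_num) hn

theorem step {p q : ℕ} (hp : p.Prime) (hq : q.Prime) (hp7 : 7 ≤ p) (hq7 : 7 ≤ q) (h1 : 4 * p ≤ 3 * q + 2)
    (h2 : 3 * q ≤ 4 * p + 3) :
    (p % 5 = 2 ∧ q % 5 = 3 ∧ 3 * q = 4 * p + 1) ∨ (p % 5 = 2 ∧ q % 5 = 4 ∧ 3 * q + 1 = 4 * p) ∨
    (p % 5 = 3 ∧ q % 5 = 1 ∧ 3 * q = 4 * p + 1) ∨ (p % 5 = 3 ∧ q % 5 = 2 ∧ 3 * q + 1 = 4 * p) ∨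
    (p % 5 = 1 ∧ q % 5 = 1 ∧ 3 * q + 1 = 4 * p) ∨ (p % 5 = 4 ∧ q % 5 = 4 ∧ 3 * q = 4 * p + 1) := by
  have key : ∀ {r : ℕ}, r.Prime → 7 ≤ r → ∀ d : ℕ, 2 ≤ d → d ≤ 5 → r % d ≠ 0 := by
    intro r hr h7 d hd1 hd2 h
    rcases (Nat.dvd_prime hr).1 (Nat.dvd_of_mod_eq_zero h) with h4 | h4 <;> omega
  have p3 := key hp hp7 3 (by norm_num) (by norm_num)
  have p5 := key hp hp7 5 (by norm_num) (by norm_num)
  have q2 := key hq hq7 2 (by norm_num) (by norm_num)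
  have q5 := key hq hq7 5 (by norm_num) (by norm_num)
  have h3 : 3 * q = 4 * p + 1 ∨ 3 * q + 1 = 4 * p := by omega
  have h4 : p % 5 = 1 ∨ p % 5 = 2 ∨ p % 5 = 3 ∨ p % 5 = 4 := by omega
  rcases h3 with h3 | h3 <;> rcases h4 with h4 | h4 | h4 | h4 <;> omega

/-- The invariant in the alternating phase. -/
def U (p : ℕ) : ℤ := if p % 5 = 2 then 7 * p + 1 else 7 * p - 1

/-- The invariant in the constant phase. -/
def V (p : ℕ) : ℤ := if p % 5 = 1 then p - 1 else p + 1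

theorem U_step {p q : ℕ} (hp : p.Prime) (hq : q.Prime) (hp7 : 7 ≤ p) (hq7 : 7 ≤ q) (h1 : 4 * p ≤ 3 * q + 2)
    (h2 : 3 * q ≤ 4 * p + 3) (_hpm : p % 5 = 2 ∨ p % 5 = 3) (hqm : q % 5 = 2 ∨ q % 5 = 3) :
    3 * U q = 4 * U p := by
  unfold U
  rcases step hp hq hp7 hq7 h1 h2 with h | h | h | h | h | h <;> split_ifs <;> omega

theorem V_step {p q : ℕ} (hp : p.Prime) (hq : q.Prime) (hp7 : 7 ≤ p) (hq7 : 7 ≤ q) (h1 : 4 * p ≤ 3 * q + 2)
    (h2 : 3 * q ≤ 4 * p + 3) (hpm : p % 5 = 1 ∨ p % 5 = 4) :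
    3 * V q = 4 * V p ∧ (q % 5 = 1 ∨ q % 5 = 4) := by
  unfold V
  rcases step hp hq hp7 hq7 h1 h2 with h | h | h | h | h | h <;> split_ifs <;> omega

theorem pow_le_of {k : ℕ} {x y : ℤ} (h : (3 : ℤ) ^ k * x = 4 ^ k * y) (hy : 0 < y) : (3 : ℤ) ^ k ≤ y := by
  refine Int.le_of_dvd hy ?_
  have hc : IsCoprime ((3 : ℤ) ^ k) (4 ^ k) := by
    refine IsCoprime.pow ?_
    exact ⟨-1, 1, by norm_num⟩
  exact hc.dvd_of_dvd_mul_left ⟨x, h.symm⟩

theorem cube_lt (m C : ℕ) (hC : C ^ 3 < 3 ^ 6) {k : ℕ} (h : ((3 : ℝ)) ^ k ≤ C * ((4 : ℝ) / 3) ^ m) :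
    3 * k < m + 6 := by
  have h1 : ((3 : ℝ) ^ k) ^ 3 ≤ (C * ((4 : ℝ) / 3) ^ m) ^ 3 := pow_le_pow_left₀ (by positivity) h 3
  have h2 : (C * ((4 : ℝ) / 3) ^ m) ^ 3 ≤ (C : ℝ) ^ 3 * 3 ^ m := by
    rw [mul_pow, ← pow_mul, mul_comm m 3, pow_mul]
    refine mul_le_mul_of_nonneg_left (pow_le_pow_left₀ (by norm_num) (by norm_num) m) (by positivity)
  have h3 : (C : ℝ) ^ 3 * 3 ^ m < 3 ^ 6 * 3 ^ m := by
    have : (C : ℝ) ^ 3 < 3 ^ 6 := by exact_mod_cast hC
    exact mul_lt_mul_of_pos_right this (by positivity)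
  have h4 : (3 : ℝ) ^ (k * 3) < 3 ^ (6 + m) := by
    rw [pow_mul, pow_add]
    exact (h1.trans h2).trans_lt h3
  have h5 := (pow_lt_pow_iff_right₀ (by norm_num : (1 : ℝ) < 3)).1 h4
  omega

theorem window (n : ℕ) (hn : 23 ≤ n) : ∃ m, n ≤ m ∧ m ≤ 2 * n ∧ ¬ (a m).Prime := by
  by_contra hcon
  push Not at hcon
  have hp : ∀ k, k ≤ n → (a (n + k)).Prime := fun k hk => hcon (n + k) (by omega) (by omega)
  have h7 : ∀ k, 7 ≤ a (n + k) := fun k => a_large _ (by omega)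
  have hs : ∀ k, 4 * a (n + k) ≤ 3 * a (n + (k + 1)) + 2 ∧ 3 * a (n + (k + 1)) ≤ 4 * a (n + k) + 3 :=
    fun k => a_step (n + k)
  have hmod : ∀ k, k ≤ n → (a (n + k) % 5 = 1 ∨ a (n + k) % 5 = 4) ∨
      (a (n + k) % 5 = 2 ∨ a (n + k) % 5 = 3) := by
    intro k hk
    have : a (n + k) % 5 ≠ 0 := by
      intro h
      have := h7 k
      rcases (Nat.dvd_prime (hp k hk)).1 (Nat.dvd_of_mod_eq_zero h) with h4 | h4 <;> omega
    omega
  have hA : ∀ m, m ≤ n → (∀ i, i ≤ m → a (n + i) % 5 = 2 ∨ a (n + i) % 5 = 3) →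
      (3 : ℤ) ^ m * U (a (n + m)) = 4 ^ m * U (a n) := by
    intro m
    induction m with
    | zero => intro _ _; simp
    | succ m ih =>
      intro hm hi
      have h1 := ih (by omega) (fun i hi' => hi i (by omega))
      have h2 := U_step (hp m (by omega)) (hp (m + 1) hm) (h7 m) (h7 (m + 1)) (hs m).1 (hs m).2
        (hi m (by omega)) (hi (m + 1) le_rfl)
      calc (3 : ℤ) ^ (m + 1) * U (a (n + (m + 1))) = 3 ^ m * (3 * U (a (n + (m + 1)))) := by ring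
        _ = 4 * (3 ^ m * U (a (n + m))) := by rw [h2]; ring
        _ = 4 ^ (m + 1) * U (a n) := by rw [h1]; ring
  have hB : ∀ j, (a (n + j) % 5 = 1 ∨ a (n + j) % 5 = 4) → ∀ i, j + i ≤ n →
      (3 : ℤ) ^ i * V (a (n + (j + i))) = 4 ^ i * V (a (n + j)) ∧
        (a (n + (j + i)) % 5 = 1 ∨ a (n + (j + i)) % 5 = 4) := by
    intro j hj i
    induction i with
    | zero => intro _; simpa using hj
    | succ i ih =>
      intro hi
      obtain ⟨h1, h2⟩ := ih (by omega)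
      obtain ⟨h3, h4⟩ := V_step (hp (j + i) (by omega)) (hp (j + i + 1) hi) (h7 _) (h7 _) (hs (j + i)).1
        (hs (j + i)).2 h2
      refine ⟨?_, h4⟩
      calc (3 : ℤ) ^ (i + 1) * V (a (n + (j + (i + 1)))) = 3 ^ i * (3 * V (a (n + (j + i + 1)))) := by
            rw [← add_assoc j i 1]; ring
        _ = 4 * (3 ^ i * V (a (n + (j + i)))) := by rw [h3]; ring
        _ = 4 ^ (i + 1) * V (a (n + j)) := by rw [h1]; ring
  have hU : 0 < U (a n) ∧ U (a n) ≤ 8 * a n := by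
    have := h7 0
    simp only [add_zero] at this
    unfold U
    split_ifs <;> omega
  have hV : ∀ j, 0 < V (a (n + j)) ∧ V (a (n + j)) ≤ 2 * a (n + j) := by
    intro j
    have := h7 j
    unfold V
    split_ifs <;> omega
  have hUR : ∀ k : ℕ, (3 : ℤ) ^ k ≤ U (a n) → 3 * k < n + 6 := by
    intro k hk
    refine cube_lt n 8 (by norm_num) ?_
    have h1 : (3 : ℤ) ^ k ≤ 8 * a n := hk.trans hU.2
    have h2 : (3 : ℝ) ^ k ≤ 8 * a n := by exact_mod_cast h1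
    have h3 := a_le n
    push_cast
    linarith
  by_cases hex : ∃ j, j ≤ n ∧ (a (n + j) % 5 = 1 ∨ a (n + j) % 5 = 4)
  · classical
    set j := Nat.find hex with hjdef
    obtain ⟨hjn, hj⟩ := Nat.find_spec hex
    rw [← hjdef] at hjn hj
    have hlt : ∀ i, i < j → a (n + i) % 5 = 2 ∨ a (n + i) % 5 = 3 := by
      intro i hi
      have h1 := Nat.find_min hex (m := i) (by rw [← hjdef]; exact hi)
      rcases hmod i (by omega) with h2 | h2
      · exact absurd ⟨by omega, h2⟩ h1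
      · exact h2
    have hj1 : 3 * (j - 1) < n + 6 := by
      rcases Nat.eq_zero_or_pos j with h0 | h0
      · rw [h0]; omega
      · have h1 := hA (j - 1) (by omega) (fun i hi => hlt i (by omega))
        exact hUR _ (pow_le_of h1 hU.1)
    have h2 := (hB j hj (n - j) (by omega)).1
    have h3 := pow_le_of h2 (hV j).1
    have h4 : 3 * (n - j) < n + j + 6 := by
      refine cube_lt (n + j) 2 (by norm_num) ?_
      have h5 : (3 : ℤ) ^ (n - j) ≤ 2 * a (n + j) := h3.trans (hV j).2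
      have h6 : (3 : ℝ) ^ (n - j) ≤ 2 * a (n + j) := by exact_mod_cast h5
      have h7 := a_le (n + j)
      push_cast
      linarith
    omega
  · push Not at hex
    have hall : ∀ i, i ≤ n → a (n + i) % 5 = 2 ∨ a (n + i) % 5 = 3 := by
      intro i hi
      rcases hmod i hi with h2 | h2
      · have := hex i hi
        omega
      · exact h2
    have h1 := hA n le_rfl hall
    have := hUR _ (pow_le_of h1 hU.1)
    omega

/-- The number of the `n ≤ N` for which `a n` is composite. -/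
noncomputable def C (N : ℕ) : ℕ := ((Finset.Icc 1 N).filter (fun n : ℕ => 1 < a n ∧ ¬ (a n).Prime)).card

theorem C_mono {M N : ℕ} (h : M ≤ N) : C M ≤ C N := by
  refine Finset.card_le_card (Finset.filter_subset_filter _ ?_)
  exact Finset.Icc_subset_Icc le_rfl h

theorem C_step (n : ℕ) (hn : 22 ≤ n) : C n + 1 ≤ C (2 * n + 2) := by
  obtain ⟨m, h1, h2, h3⟩ := window (n + 1) (by omega)
  have h4 : 7 ≤ a m := a_large m (by omega)
  have hsub : insert m ((Finset.Icc 1 n).filter (fun n : ℕ => 1 < a n ∧ ¬ (a n).Prime)) ⊆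
      (Finset.Icc 1 (2 * n + 2)).filter (fun n : ℕ => 1 < a n ∧ ¬ (a n).Prime) := by
    intro x hx
    rw [Finset.mem_insert, Finset.mem_filter, Finset.mem_Icc] at hx
    rw [Finset.mem_filter, Finset.mem_Icc]
    rcases hx with rfl | ⟨⟨h5, h6⟩, h7⟩
    · exact ⟨⟨by omega, by omega⟩, by omega, h3⟩
    · exact ⟨⟨h5, by omega⟩, h7⟩
  have h5 := Finset.card_le_card hsub
  rw [Finset.card_insert_of_notMem] at h5
  · exact h5
  · rw [Finset.mem_filter, Finset.mem_Icc]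
    rintro ⟨⟨_, h6⟩, _⟩
    omega

theorem C_pow (i : ℕ) : i ≤ C (24 * 2 ^ i - 2) := by
  induction i with
  | zero => exact Nat.zero_le _
  | succ i ih =>
    have h0 : 1 ≤ 2 ^ i := Nat.one_le_two_pow
    have h1 := C_step (24 * 2 ^ i - 2) (by omega)
    have h2 : 2 * (24 * 2 ^ i - 2) + 2 = 24 * 2 ^ (i + 1) - 2 := by
      rw [pow_succ]
      omega
    rw [h2] at h1
    omega

theorem main : ∃ N₀ : ℕ, ∀ N : ℕ, N₀ ≤ N → Real.log N ≤ C N := by
  obtain ⟨N₀, hN₀⟩ := Filter.eventually_atTop.1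
    ((Real.tendsto_log_atTop.comp tendsto_natCast_atTop_atTop).eventually_ge_atTop (14 : ℝ))
  refine ⟨max N₀ 24, fun N hN => ?_⟩
  have hlog : (14 : ℝ) ≤ Real.log N := hN₀ N ((le_max_left _ _).trans hN)
  have hN24 : 24 ≤ N := (le_max_right _ _).trans hN
  set i := Nat.log 2 (N / 24) with hi
  have h1 : 2 ^ i ≤ N / 24 := Nat.pow_log_le_self 2 (by
    have : 1 ≤ N / 24 := (Nat.one_le_div_iff (by norm_num)).2 hN24
    omega)
  have h2 : N / 24 < 2 ^ (i + 1) := Nat.lt_pow_succ_log_self (by norm_num) _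
  have h3 : 24 * 2 ^ i ≤ N := by omega
  have h4 : N < 24 * 2 ^ (i + 1) := by omega
  have h5 : i ≤ C N := (C_pow i).trans (C_mono (by omega))
  have h6 : (N : ℝ) < 24 * 2 ^ (i + 1) := by exact_mod_cast h4
  have hNpos : (0 : ℝ) < N := by
    have : (24 : ℝ) ≤ N := by exact_mod_cast hN24
    linarith
  have h7 := Real.log_lt_log hNpos h6
  rw [Real.log_mul (by norm_num) (by positivity), Real.log_pow] at h7
  have h8 := Real.log_two_lt_d9
  have h9 : Real.log 24 ≤ 5 * Real.log 2 := by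
    rw [show (5 : ℝ) * Real.log 2 = Real.log (2 ^ 5) by rw [Real.log_pow]; norm_num]
    exact Real.log_le_log (by norm_num) (by norm_num)
  have h10 : (i : ℝ) ≤ C N := by exact_mod_cast h5
  push_cast at h7
  have hi0 : (0 : ℝ) ≤ i := by positivity
  have h11 : ((i : ℝ) + 1) * Real.log 2 ≤ (i + 1) * 0.6932 :=
    mul_le_mul_of_nonneg_left (by linarith) (by linarith)
  linarith

end Pool.Agent.helper391_FT
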